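import Pool.Agent.Lib.MP_0e3b4a_gt.H21.Quad
import Pool.Agent.Lib.MP_0e3b4a_gt.H30.Prod

/-! # META: covectors which kill the second derived algebra -/

set_option autoImplicit false
set_option linter.unusedSectionVars false

namespace Pool.Agent.CutLoci.H21

open MeasureTheory Set Filter Topology

section Poly

open MvPolynomial

/-- Continuity of polynomials along continuous curves. -/
theorem cont_eval {x : ℝ → Fin 2 → ℝ} (hx : ContinuousOn x (Icc 0 1))
    (p : MvPolynomial (Fin 2) ℝ) : ContinuousOn (fun t => eval (x t) p) (Icc 0 1) :=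
  (MvPolynomial.continuous_eval p).comp_continuousOn hx

theorem ii {E : Type*} [NormedAddCommGroup E] {f : ℝ → E} (hf : IntegrableOn f (Ioc 0 1))
    {t : ℝ} (ht : t ∈ Icc (0 : ℝ) 1) : IntervalIntegrable f volume 0 t := by
  rw [intervalIntegrable_iff_integrableOn_Ioc_of_le ht.1]
  exact hf.mono_set (Ioc_subset_Ioc_right ht.2)

theorem int_mul {f k : ℝ → ℝ} (hk : IntegrableOn k (Ioc 0 1)) (hf : ContinuousOn f (Icc 0 1)) :
    IntegrableOn (fun s => k s * f s) (Ioc 0 1) := by
  rw [← integrableOn_Icc_iff_integrableOn_Ioc] at hk ⊢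
  exact hk.mul_continuousOn hf isCompact_Icc

theorem comp_int {u : ℝ → EE 2} (hu : IntegrableOn u (Ioc 0 1)) (i : Fin 2) :
    IntegrableOn (fun s => u s i) (Ioc 0 1) :=
  (EuclideanSpace.proj i : EE 2 →L[ℝ] ℝ).integrable_comp hu

theorem int_comp {u : ℝ → EE 2} (hu : IntegrableOn u (Ioc 0 1)) (i : Fin 2) {t : ℝ}
    (ht : t ∈ Icc (0 : ℝ) 1) : (∫ s in (0 : ℝ)..t, u s) i = ∫ s in (0 : ℝ)..t, u s i :=
  ((EuclideanSpace.proj i : EE 2 →L[ℝ] ℝ).intervalIntegral_comp_comm
    (ii hu ht)).symm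

/-- The path. -/
noncomputable def xx (u : ℝ → EE 2) (t : ℝ) : Fin 2 → ℝ := fun i => (∫ s in (0 : ℝ)..t, u s) i

theorem cont_xx {u : ℝ → EE 2} (hu : IntegrableOn u (Ioc 0 1)) :
    ContinuousOn (xx u) (Icc 0 1) := by
  have h1 : ContinuousOn (fun t => ∫ s in (0 : ℝ)..t, u s) (Icc 0 1) := by
    have h := intervalIntegral.continuousOn_primitive_interval' (a := 0)
      (ii hu (t := 1) ⟨zero_le_one, le_rfl⟩) (by simp)
    rwa [uIcc_of_le zero_le_one] at h
  refine continuousOn_pi.2 fun i => ?_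
  exact (EuclideanSpace.proj i : EE 2 →L[ℝ] ℝ).continuous.comp_continuousOn h1

theorem chain {u : ℝ → EE 2} (hu : IntegrableOn u (Ioc 0 1)) (p : MvPolynomial (Fin 2) ℝ) :
    ∀ t ∈ Icc (0 : ℝ) 1, eval (xx u t) p = eval 0 p +
      ∫ s in (0 : ℝ)..t, (u s 0 * eval (xx u s) (pderiv 0 p) +
        u s 1 * eval (xx u s) (pderiv 1 p)) := by
  have hI : ∀ p : MvPolynomial (Fin 2) ℝ, ∀ i j : Fin 2,
      IntegrableOn (fun s => u s i * eval (xx u s) (pderiv j p)) (Ioc 0 1) := fun p i j =>
    int_mul (comp_int hu i) (cont_eval (cont_xx hu) _)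
  induction p using MvPolynomial.induction_on with
  | C a => intro t ht; simp
  | add p q hp hq =>
    intro t ht
    rw [map_add, map_add, hp t ht, hq t ht]
    have e : (fun s => u s 0 * eval (xx u s) (pderiv 0 (p + q)) +
        u s 1 * eval (xx u s) (pderiv 1 (p + q))) = fun s =>
        (u s 0 * eval (xx u s) (pderiv 0 p) + u s 1 * eval (xx u s) (pderiv 1 p)) +
        (u s 0 * eval (xx u s) (pderiv 0 q) + u s 1 * eval (xx u s) (pderiv 1 q)) := by
      funext s
      simp only [map_add]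
      ring
    have hA : ∀ p : MvPolynomial (Fin 2) ℝ, IntervalIntegrable (fun s =>
        u s 0 * eval (xx u s) (pderiv 0 p) + u s 1 * eval (xx u s) (pderiv 1 p)) volume 0 t :=
      fun p => ii ((hI p 0 0).add (hI p 1 1)) ht
    rw [e, intervalIntegral.integral_add (hA p) (hA q)]
    ring
  | mul_X p i hp =>
    intro t ht
    have h := H30.prod ℝ ℝ ℝ (ContinuousLinearMap.mul ℝ ℝ)
      (fun s => u s 0 * eval (xx u s) (pderiv 0 p) + u s 1 * eval (xx u s) (pderiv 1 p))
      (fun s => u s i) (eval 0 p) 0 ((hI p 0 0).add (hI p 1 1)) (comp_int hu i) t ht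
    simp only [ContinuousLinearMap.mul_apply'] at h
    rw [← hp t ht, zero_add, ← int_comp hu i ht] at h
    have h0 : eval 0 (p * X i : MvPolynomial (Fin 2) ℝ) = 0 := by simp
    rw [h0, zero_add, map_mul, eval_X]
    show eval (xx u t) p * (∫ s in (0 : ℝ)..t, u s) i = _
    rw [h, mul_zero, zero_add]
    refine intervalIntegral.integral_congr fun s hs => ?_
    rw [uIcc_of_le ht.1] at hs
    have hs' : s ∈ Icc (0 : ℝ) 1 := ⟨hs.1, hs.2.trans ht.2⟩
    show (u s 0 * eval (xx u s) (pderiv 0 p) + u s 1 * eval (xx u s) (pderiv 1 p)) *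
      (0 + ∫ p in (0 : ℝ)..s, u p i) + (eval 0 p + ∫ q in (0 : ℝ)..s,
        (u q 0 * eval (xx u q) (pderiv 0 p) + u q 1 * eval (xx u q) (pderiv 1 p))) * u s i = _
    rw [← hp s hs', zero_add, ← int_comp hu i hs']
    have hxi : eval (xx u s) (X i : MvPolynomial (Fin 2) ℝ) = (∫ s in (0 : ℝ)..s, u s) i := by
      rw [eval_X]; rfl
    show _ = u s 0 * eval (xx u s) (pderiv 0 (p * X i)) + u s 1 * eval (xx u s) (pderiv 1 (p * X i))
    rw [pderiv_mul, pderiv_mul]
    simp only [map_add, map_mul, hxi]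
    fin_cases i
    · simp
      ring
    · simp
      ring

end Poly

section Alg

variable {g : Type} [NormedAddCommGroup g] [NormedSpace ℝ g] [FiniteDimensional ℝ g]

/-- The derived algebra. -/
def K1 (C : Carnot g 2) : Submodule ℝ g := Submodule.span ℝ {z | ∃ x y, z = C.br x y}

/-- The second derived algebra. -/
def K2 (C : Carnot g 2) : Submodule ℝ g :=
  Submodule.span ℝ {z | ∃ x ∈ K1 C, ∃ y ∈ K1 C, z = C.br x y}

/-- The layers at least two. -/
def L2 (C : Carnot g 2) : Submodule ℝ g := Submodule.span ℝ {z | ∃ j, 2 ≤ j ∧ z ∈ C.V j}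

variable (C : Carnot g 2)

theorem br_K1 (x y : g) : C.br x y ∈ K1 C := Submodule.subset_span ⟨x, y, rfl⟩

theorem br_K2 {x y : g} (hx : x ∈ K1 C) (hy : y ∈ K1 C) : C.br x y ∈ K2 C :=
  Submodule.subset_span ⟨x, hx, y, hy, rfl⟩

theorem K2_ideal (x : g) {y : g} (hy : y ∈ K2 C) : C.br x y ∈ K2 C := by
  induction hy using Submodule.span_induction with
  | mem z hz =>
    obtain ⟨a, ha, b, hb, rfl⟩ := hz
    rw [C.jacobi]
    exact add_mem (br_K2 C (br_K1 C _ _) hb) (br_K2 C ha (br_K1 C _ _))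
  | zero => rw [map_zero]; exact zero_mem _
  | add a b _ _ ha hb => rw [map_add]; exact add_mem ha hb
  | smul c a _ ha => rw [map_smul]; exact Submodule.smul_mem _ _ ha

theorem K1_le (hG : GradeStatement g 2) : K1 C ≤ L2 C := by
  rw [K1, Submodule.span_le]
  rintro _ ⟨x, y, rfl⟩
  obtain ⟨h1, _, _, h4, _⟩ := hG C
  obtain ⟨a, ha, hx⟩ := h4 x
  obtain ⟨b, hb, hy⟩ := h4 y
  rw [hx, hy, map_sum]
  refine sum_mem fun k hk => ?_
  rw [map_sum, ContinuousLinearMap.sum_apply]
  refine sum_mem fun j hj => ?_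
  rw [Finset.mem_Icc] at hj hk
  exact Submodule.subset_span ⟨j + k, by omega, h1 j k _ (ha j) _ (hb k)⟩

theorem l_K2 (hG : GradeStatement g 2) (l : g →L[ℝ] ℝ)
    (hl : ∀ j k, 2 ≤ j → 2 ≤ k → ∀ x ∈ C.V j, ∀ y ∈ C.V k, l (C.br x y) = 0) {z : g}
    (hz : z ∈ K2 C) : l z = 0 := by
  have key : ∀ x ∈ L2 C, ∀ y ∈ L2 C, l (C.br x y) = 0 := by
    intro x hx y hy
    induction hx using Submodule.span_induction with
    | mem x hx =>
      obtain ⟨j, hj, hx⟩ := hx
      induction hy using Submodule.span_induction with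
      | mem y hy =>
        obtain ⟨k, hk, hy⟩ := hy
        exact hl j k hj hk x hx y hy
      | zero => simp
      | add a b _ _ ha hb => simp [ha, hb]
      | smul c a _ ha => simp [ha]
    | zero => simp
    | add a b _ _ ha hb => simp [ha, hb]
    | smul c a _ ha => simp [ha]
  induction hz using Submodule.span_induction with
  | mem z hz =>
    obtain ⟨x, hx, y, hy, rfl⟩ := hz
    exact key x (K1_le C hG hx) y (K1_le C hG hy)
  | zero => simp
  | add a b _ _ ha hb => simp [ha, hb]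
  | smul c a _ ha => simp [ha]

theorem A_K1 (A : g →L[ℝ] g) (hA : ∀ x y, A (C.br x y) = C.br (A x) (A y)) {z : g}
    (hz : z ∈ K1 C) : A z ∈ K1 C := by
  induction hz using Submodule.span_induction with
  | mem z hz =>
    obtain ⟨x, y, rfl⟩ := hz
    rw [hA]
    exact br_K1 C _ _
  | zero => rw [map_zero]; exact zero_mem _
  | add a b _ _ ha hb => rw [map_add]; exact add_mem ha hb
  | smul c a _ ha => rw [map_smul]; exact Submodule.smul_mem _ _ ha

theorem A_K2 (A : g →L[ℝ] g) (hA : ∀ x y, A (C.br x y) = C.br (A x) (A y)) {z : g}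
    (hz : z ∈ K2 C) : A z ∈ K2 C := by
  induction hz using Submodule.span_induction with
  | mem z hz =>
    obtain ⟨x, hx, y, hy, rfl⟩ := hz
    rw [hA]
    exact br_K2 C (A_K1 C A hA hx) (A_K1 C A hA hy)
  | zero => rw [map_zero]; exact zero_mem _
  | add a b _ _ ha hb => rw [map_add]; exact add_mem ha hb
  | smul c a _ ha => rw [map_smul]; exact Submodule.smul_mem _ _ ha

/-- The first frame vector. -/
noncomputable def f1 : g := C.X (EuclideanSpace.single 0 1)

/-- The second frame vector. -/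
noncomputable def f2 : g := C.X (EuclideanSpace.single 1 1)

/-- `ad(e₁)^i ad(e₂)^j w`. -/
noncomputable def Z (i j : ℕ) : g := (C.br (f1 C))^[i] ((C.br (f2 C))^[j] (ww C))

theorem Z_zero : Z C 0 0 = ww C := rfl

theorem Z_succ (i j : ℕ) : Z C (i + 1) j = C.br (f1 C) (Z C i j) := by
  unfold Z
  rw [Function.iterate_succ_apply']

theorem Z_zero_succ (j : ℕ) : Z C 0 (j + 1) = C.br (f2 C) (Z C 0 j) := by
  show (C.br (f2 C))^[j + 1] (ww C) = C.br (f2 C) ((C.br (f2 C))^[j] (ww C))
  exact Function.iterate_succ_apply' _ _ _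

theorem X_eq (a : EE 2) : C.X a = a 0 • f1 C + a 1 • f2 C := by
  have h : a = a 0 • EuclideanSpace.single 0 1 + a 1 • EuclideanSpace.single 1 1 := by
    ext i
    fin_cases i <;> simp
  conv_lhs => rw [h]
  rw [map_add, map_smul, map_smul]
  rfl

theorem X_V1 (a : EE 2) : C.X a ∈ C.V 1 := by
  rw [← C.X_range]
  exact ⟨a, rfl⟩

theorem Z_mem (hG : GradeStatement g 2) (i j : ℕ) : Z C i j ∈ C.V (i + j + 2) := by
  obtain ⟨h1, _, _, _, _⟩ := hG C
  induction i with
  | zero =>
    induction j with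
    | zero => exact h1 1 1 _ (X_V1 C _) _ (X_V1 C _)
    | succ j ih =>
      rw [Z_zero_succ]
      have := h1 1 _ _ (X_V1 C (EuclideanSpace.single 1 1)) _ ih
      have e : 1 + (0 + j + 2) = 0 + (j + 1) + 2 := by omega
      rw [e] at this
      exact this
  | succ i ih =>
    rw [Z_succ]
    have := h1 1 _ _ (X_V1 C (EuclideanSpace.single 0 1)) _ ih
    have e : 1 + (i + j + 2) = i + 1 + j + 2 := by omega
    rw [e] at this
    exact this

theorem Z_K1 (i j : ℕ) : Z C i j ∈ K1 C := by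
  cases i with
  | zero =>
    cases j with
    | zero => exact br_K1 C _ _
    | succ j => rw [Z_zero_succ]; exact br_K1 C _ _
  | succ i => rw [Z_succ]; exact br_K1 C _ _

theorem Z_comm (hG : GradeStatement g 2) (i j : ℕ) :
    C.br (f2 C) (Z C i j) - Z C i (j + 1) ∈ K2 C := by
  obtain ⟨_, _, _, _, h5⟩ := hG C
  induction i with
  | zero => rw [Z_zero_succ, sub_self]; exact zero_mem _
  | succ i ih =>
    have hw : C.br (f2 C) (f1 C) = - ww C := h5 _ _
    have e : C.br (f2 C) (Z C (i + 1) j) - Z C (i + 1) (j + 1) =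
        - C.br (ww C) (Z C i j) + C.br (f1 C) (C.br (f2 C) (Z C i j) - Z C i (j + 1)) := by
      rw [Z_succ, Z_succ, C.jacobi, hw, map_neg, ContinuousLinearMap.neg_apply, map_sub]
      abel
    rw [e]
    exact add_mem (neg_mem (br_K2 C (Z_K1 C 0 0) (Z_K1 C i j))) (K2_ideal C _ ih)

/-- The span of the `Z_ij` and the second derived algebra. -/
def MM : Submodule ℝ g := K2 C ⊔ Submodule.span ℝ {z | ∃ i j, z = Z C i j}

theorem Z_MM (i j : ℕ) : Z C i j ∈ MM C :=
  Submodule.mem_sup_right (Submodule.subset_span ⟨i, j, rfl⟩)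

theorem MM_stable (hG : GradeStatement g 2) (a : EE 2) {y : g} (hy : y ∈ MM C) :
    C.br (C.X a) y ∈ MM C := by
  rw [MM, Submodule.mem_sup] at hy
  obtain ⟨k, hk, z, hz, rfl⟩ := hy
  rw [map_add]
  refine add_mem (Submodule.mem_sup_left (K2_ideal C _ hk)) ?_
  induction hz using Submodule.span_induction with
  | mem z hz =>
    obtain ⟨i, j, rfl⟩ := hz
    rw [X_eq, map_add, map_smul, map_smul, ContinuousLinearMap.add_apply,
      ContinuousLinearMap.smul_apply, ContinuousLinearMap.smul_apply]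
    refine add_mem (Submodule.smul_mem _ _ ?_) (Submodule.smul_mem _ _ ?_)
    · rw [← Z_succ]; exact Z_MM C _ _
    · have h := Z_comm C hG i j
      have e : C.br (f2 C) (Z C i j) =
          (C.br (f2 C) (Z C i j) - Z C i (j + 1)) + Z C i (j + 1) := by abel
      rw [e]
      exact add_mem (Submodule.mem_sup_left h) (Z_MM C _ _)
  | zero => rw [map_zero]; exact zero_mem _
  | add a b _ _ ha hb => rw [map_add]; exact add_mem ha hb
  | smul c a _ ha => rw [map_smul]; exact Submodule.smul_mem _ _ ha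

theorem V_MM (hG : GradeStatement g 2) (j : ℕ) : C.V (j + 2) ≤ MM C := by
  induction j with
  | zero =>
    rw [show (0 + 2 : ℕ) = 1 + 1 from rfl, C.gen 1 le_rfl, Submodule.span_le]
    rintro _ ⟨x, hx, y, hy, rfl⟩
    obtain ⟨_, _, _, _, h5⟩ := hG C
    rw [← C.X_range] at hx hy
    obtain ⟨a, rfl⟩ := hx
    obtain ⟨b, rfl⟩ := hy
    show C.br (C.X a) (C.X b) ∈ MM C
    have h11 : C.br (f1 C) (f1 C) = 0 := C.br_self _
    have h22 : C.br (f2 C) (f2 C) = 0 := C.br_self _
    have h21 : C.br (f2 C) (f1 C) = - ww C := h5 _ _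
    have h12 : C.br (f1 C) (f2 C) = ww C := rfl
    have e : C.br (C.X a) (C.X b) = (a 0 * b 1 - a 1 * b 0) • ww C := by
      rw [X_eq C a, X_eq C b]
      simp only [map_add, map_smul, ContinuousLinearMap.add_apply, ContinuousLinearMap.smul_apply,
        h11, h22, h21, h12]
      module
    rw [e]
    exact Submodule.smul_mem _ _ (Z_MM C 0 0)
  | succ j ih =>
    rw [show (j + 1 + 2 : ℕ) = (j + 2) + 1 from rfl, C.gen (j + 2) (by omega), Submodule.span_le]
    rintro _ ⟨x, hx, y, hy, rfl⟩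
    rw [← C.X_range] at hx
    obtain ⟨a, rfl⟩ := hx
    exact MM_stable C hG a (ih hy)

/-- A functional which kills the frame, the second derived algebra and all `Z_ij` is zero. -/
theorem l_zero (hG : GradeStatement g 2) (l : g →L[ℝ] ℝ) (h1 : ∀ a, l (C.X a) = 0)
    (h2 : ∀ z ∈ K2 C, l z = 0) (h3 : ∀ i j, l (Z C i j) = 0) : l = 0 := by
  have hMM : MM C ≤ LinearMap.ker l.toLinearMap := by
    rw [MM, sup_le_iff]
    refine ⟨fun z hz => h2 z hz, ?_⟩
    rw [Submodule.span_le]
    rintro _ ⟨i, j, rfl⟩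
    exact h3 i j
  have hV : ∀ j, C.V j ≤ LinearMap.ker l.toLinearMap := by
    intro j
    match j with
    | 0 => rw [C.V_zero]; exact bot_le
    | 1 =>
      rw [← C.X_range]
      rintro _ ⟨a, rfl⟩
      exact h1 a
    | j + 2 => exact (V_MM C hG j).trans hMM
  have htop : (⊤ : Submodule ℝ g) ≤ LinearMap.ker l.toLinearMap := by
    rw [← C.V_top]
    exact iSup_le hV
  ext z
  exact htop (Submodule.mem_top (x := z))

end Alg

section Main

open MvPolynomial

variable {g : Type} [NormedAddCommGroup g] [NormedSpace ℝ g] [FiniteDimensional ℝ g]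

/-- The polynomials `∂₁^i ∂₂^j F`. -/
noncomputable def PP (C : Carnot g 2) (l : g →L[ℝ] ℝ) (N i j : ℕ) : MvPolynomial (Fin 2) ℝ :=
  ∑ p ∈ Finset.range N ×ˢ Finset.range N,
    monomial (mm p) (l (Z C (i + p.1) (j + p.2)) / (p.1.factorial * p.2.factorial))

variable (C : Carnot g 2) (l : g →L[ℝ] ℝ) (N : ℕ)

theorem Z_big (hG : GradeStatement g 2) (hN : ∀ j, N < j → C.V j = ⊥) {i j : ℕ}
    (h : N < i + j + 2) : Z C i j = 0 := by
  have := Z_mem C hG i j
  rw [hN _ h] at this
  exact (Submodule.mem_bot ℝ).1 this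

theorem coeff_PP (hG : GradeStatement g 2) (hN : ∀ j, N < j → C.V j = ⊥) (i j : ℕ)
    (m : Fin 2 →₀ ℕ) : coeff m (PP C l N i j) =
      l (Z C (i + m 0) (j + m 1)) / ((m 0).factorial * (m 1).factorial) := by
  classical
  unfold PP
  rw [coeff_sum]
  by_cases hm : m 0 < N ∧ m 1 < N
  · rw [Finset.sum_eq_single (m 0, m 1)]
    · rw [coeff_monomial, if_pos (mm_surj m)]
    · intro p _ hp
      rw [coeff_monomial, if_neg]
      intro h
      exact hp (mm_inj (h.trans (mm_surj m).symm))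
    · intro h
      exact absurd (Finset.mem_product.2 ⟨Finset.mem_range.2 hm.1, Finset.mem_range.2 hm.2⟩) h
  · have hz : Z C (i + m 0) (j + m 1) = 0 := Z_big C N hG hN (by omega)
    rw [hz, map_zero, zero_div]
    refine Finset.sum_eq_zero fun p hp => ?_
    rw [coeff_monomial, if_neg]
    rintro rfl
    rw [mm_zero, mm_one] at hm
    rw [Finset.mem_product, Finset.mem_range, Finset.mem_range] at hp
    exact hm hp

theorem pderiv0 (hG : GradeStatement g 2) (hN : ∀ j, N < j → C.V j = ⊥) (i j : ℕ) :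
    pderiv 0 (PP C l N i j) = PP C l N (i + 1) j := by
  ext m
  rw [coeff_pderiv, coeff_PP C l N hG hN, coeff_PP C l N hG hN]
  have e0 : (m + Finsupp.single 0 1 : Fin 2 →₀ ℕ) 0 = m 0 + 1 := by simp
  have e1 : (m + Finsupp.single 0 1 : Fin 2 →₀ ℕ) 1 = m 1 := by simp
  rw [e0, e1, Nat.factorial_succ, show i + (m 0 + 1) = i + 1 + m 0 by omega]
  push_cast
  have h0 : ((m 0).factorial : ℝ) ≠ 0 := by positivity
  have h1 : ((m 1).factorial : ℝ) ≠ 0 := by positivity
  have h2 : ((m 0 : ℝ) + 1) ≠ 0 := by positivity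
  field_simp

theorem pderiv1 (hG : GradeStatement g 2) (hN : ∀ j, N < j → C.V j = ⊥) (i j : ℕ) :
    pderiv 1 (PP C l N i j) = PP C l N i (j + 1) := by
  ext m
  rw [coeff_pderiv, coeff_PP C l N hG hN, coeff_PP C l N hG hN]
  have e0 : (m + Finsupp.single 1 1 : Fin 2 →₀ ℕ) 0 = m 0 := by simp
  have e1 : (m + Finsupp.single 1 1 : Fin 2 →₀ ℕ) 1 = m 1 + 1 := by simp
  rw [e0, e1, Nat.factorial_succ, show j + (m 1 + 1) = j + 1 + m 1 by omega]
  push_cast
  have h0 : ((m 0).factorial : ℝ) ≠ 0 := by positivity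
  have h1 : ((m 1).factorial : ℝ) ≠ 0 := by positivity
  have h2 : ((m 1 : ℝ) + 1) ≠ 0 := by positivity
  field_simp

theorem eval0 (hG : GradeStatement g 2) (hN : ∀ j, N < j → C.V j = ⊥) (i j : ℕ) :
    eval 0 (PP C l N i j) = l (Z C i j) := by
  have h := coeff_PP C l N hG hN i j 0
  rw [MvPolynomial.eval_zero, constantCoeff_eq, h]
  simp

/-- META. -/
theorem metab (hS : StrucStatement g 2) (hG : GradeStatement g 2) : MetaStatement g := by
  intro C N h2N hN u l hl hlX hlV
  have hK2 : ∀ z ∈ K2 C, l z = 0 := fun z hz => l_K2 C hG l hlV hz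
  have hu : IntegrableOn (u : ℝ → EE 2) (Ioc 0 1) := by
    have : MemLp (u : ℝ → EE 2) 2 (volume.restrict (Ioc (0 : ℝ) 1)) := Lp.memLp u
    exact this.integrable (by norm_num)
  obtain ⟨_, hAd, hst⟩ := hS C u hu
  have hcontl : ∀ z, ContinuousOn (fun t => l (C.Ad u t z)) (Icc 0 1) := by
    intro z
    exact l.continuous.comp_continuousOn (hAd.clm_apply continuousOn_const)
  -- the equation for the left-hand side
  have hleft : ∀ i j, ∀ t ∈ Icc (0 : ℝ) 1, l (C.Ad u t (Z C i j)) = l (Z C i j) +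
      ∫ s in (0 : ℝ)..t, (u s 0 * l (C.Ad u s (Z C (i + 1) j)) +
        u s 1 * l (C.Ad u s (Z C i (j + 1)))) := by
    intro i j t ht
    obtain ⟨_, _, _, h4, _⟩ := hst t ht
    rw [h4 (Z C i j), map_add]
    congr 1
    have hint : IntervalIntegrable (fun s => C.Ad u s (C.br (C.X (u s)) (Z C i j))) volume 0 t := by
      have e : (fun s => C.Ad u s (C.br (C.X (u s)) (Z C i j))) = fun s =>
          u s 0 • C.Ad u s (C.br (f1 C) (Z C i j)) + u s 1 • C.Ad u s (C.br (f2 C) (Z C i j)) := by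
        funext s
        rw [X_eq]
        simp only [map_add, map_smul, ContinuousLinearMap.add_apply,
          ContinuousLinearMap.smul_apply]
      rw [e]
      have hI : ∀ (k : Fin 2) (z : g), IntegrableOn (fun s => u s k • C.Ad u s z) (Ioc 0 1) := by
        intro k z
        have hk := comp_int hu k
        rw [← integrableOn_Icc_iff_integrableOn_Ioc] at hk ⊢
        exact hk.smul_continuousOn (hAd.clm_apply continuousOn_const) isCompact_Icc
      exact ii ((hI 0 _).add (hI 1 _)) ht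
    rw [← l.intervalIntegral_comp_comm hint]
    refine intervalIntegral.integral_congr fun s hs => ?_
    rw [uIcc_of_le ht.1] at hs
    have hs' : s ∈ Icc (0 : ℝ) 1 := ⟨hs.1, hs.2.trans ht.2⟩
    obtain ⟨_, h5, _, _, _⟩ := hst s hs'
    show l (C.Ad u s (C.br (C.X (u s)) (Z C i j))) = _
    have hk := hK2 _ (A_K2 C (C.Ad u s) h5 (Z_comm C hG i j))
    rw [map_sub, map_sub, sub_eq_zero] at hk
    rw [X_eq]
    simp only [map_add, map_smul, ContinuousLinearMap.add_apply,
      ContinuousLinearMap.smul_apply, smul_eq_mul, Z_succ, hk]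
  have key : ∀ n i j, N < i + j + 2 + n → ∀ t ∈ Icc (0 : ℝ) 1,
      l (C.Ad u t (Z C i j)) = eval (xx u t) (PP C l N i j) := by
    intro n
    induction n with
    | zero =>
      intro i j h t ht
      have hz : PP C l N i j = 0 := by
        ext m
        rw [coeff_PP C l N hG hN, Z_big C N hG hN (by omega)]
        simp
      rw [hz, Z_big C N hG hN (by omega)]
      simp
    | succ n ih =>
      intro i j h t ht
      rw [hleft i j t ht, chain hu _ t ht, eval0 C l N hG hN]
      congr 1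
      refine intervalIntegral.integral_congr fun s hs => ?_
      rw [uIcc_of_le ht.1] at hs
      have hs' : s ∈ Icc (0 : ℝ) 1 := ⟨hs.1, hs.2.trans ht.2⟩
      show u s 0 * l (C.Ad u s (Z C (i + 1) j)) + u s 1 * l (C.Ad u s (Z C i (j + 1))) =
        u s 0 * eval (xx u s) (pderiv 0 (PP C l N i j)) +
          u s 1 * eval (xx u s) (pderiv 1 (PP C l N i j))
      rw [pderiv0 C l N hG hN, pderiv1 C l N hG hN, ih _ _ (by omega) s hs',
        ih _ _ (by omega) s hs']
  refine ⟨PP C l N 0 0, ?_, ?_, fun t ht => ⟨?_, fun j => ?_⟩⟩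
  · intro hF
    refine hl (l_zero C hG l hlX hK2 fun i j => ?_)
    have hPP : ∀ i j, PP C l N i j = 0 := by
      intro i j
      induction i with
      | zero =>
        induction j with
        | zero => exact hF
        | succ j ih => rw [← pderiv1 C l N hG hN, ih, map_zero]
      | succ i ih => rw [← pderiv0 C l N hG hN, ih, map_zero]
    rw [← eval0 C l N hG hN, hPP, map_zero]
  · refine Finset.sup_le fun m hm => ?_
    rw [mem_support_iff, coeff_PP C l N hG hN] at hm
    rw [Finsupp.sum_fintype _ _ (fun _ => rfl), Fin.sum_univ_two]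
    by_contra hcon
    refine hm ?_
    rw [Z_big C N hG hN (by omega)]
    simp
  · exact (key (N + 1) 0 0 (by omega) t ht).symm
  · fin_cases j
    · show eval (xx u t) (pderiv 0 (PP C l N 0 0)) = l (C.Ad u t (C.br (f1 C) (ww C)))
      rw [pderiv0 C l N hG hN, ← key (N + 1) 1 0 (by omega) t ht]
      rfl
    · show eval (xx u t) (pderiv 1 (PP C l N 0 0)) = l (C.Ad u t (C.br (f2 C) (ww C)))
      rw [pderiv1 C l N hG hN, ← key (N + 1) 0 1 (by omega) t ht]
      rfl

end Main

end Pool.Agent.CutLoci.H21
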