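import Pool.Agent.Lib.MP_0e3b4a_gt.Iface3

/-! # QUAD: polynomials of degree at most two in two variables -/

set_option autoImplicit false

namespace Pool.Agent.CutLoci.H21

open MvPolynomial

/-- Exponents. -/
noncomputable def mm (p : ℕ × ℕ) : Fin 2 →₀ ℕ := Finsupp.single 0 p.1 + Finsupp.single 1 p.2

theorem mm_zero (p : ℕ × ℕ) : mm p 0 = p.1 := by
  simp [mm]

theorem mm_one (p : ℕ × ℕ) : mm p 1 = p.2 := by
  simp [mm]

theorem mm_inj : Function.Injective mm := by
  intro p q h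
  refine Prod.ext ?_ ?_
  · rw [← mm_zero, ← mm_zero, h]
  · rw [← mm_one, ← mm_one, h]

theorem mm_surj (d : Fin 2 →₀ ℕ) : mm (d 0, d 1) = d := by
  ext i
  fin_cases i
  · exact mm_zero _
  · exact mm_one _

/-- The exponents of degree at most two. -/
def T2 : Finset (ℕ × ℕ) := {(0, 0), (1, 0), (0, 1), (2, 0), (1, 1), (0, 2)}

theorem mem_T2 (a b : ℕ) (h : a + b ≤ 2) : (a, b) ∈ T2 := by
  have ha : a ≤ 2 := by omega
  have hb : b ≤ 2 := by omega
  interval_cases a <;> interval_cases b <;> simp_all [T2]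

theorem deg_le {Q : MvPolynomial (Fin 2) ℝ} {d : Fin 2 →₀ ℕ} (hd : d ∈ Q.support) :
    d 0 + d 1 ≤ Q.totalDegree := by
  have h := MvPolynomial.le_totalDegree hd
  rwa [Finsupp.sum_fintype _ _ (fun _ => rfl), Fin.sum_univ_two] at h

theorem support_sub {Q : MvPolynomial (Fin 2) ℝ} (h2 : Q.totalDegree ≤ 2) :
    Q.support ⊆ T2.map ⟨mm, mm_inj⟩ := by
  intro d hd
  rw [Finset.mem_map]
  exact ⟨(d 0, d 1), mem_T2 _ _ ((deg_le hd).trans h2), mm_surj d⟩

theorem eval_eq6 {Q : MvPolynomial (Fin 2) ℝ} (h2 : Q.totalDegree ≤ 2) (x : Fin 2 → ℝ) :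
    eval x Q = coeff (mm (0, 0)) Q + coeff (mm (1, 0)) Q * x 0 + coeff (mm (0, 1)) Q * x 1 +
      coeff (mm (2, 0)) Q * x 0 ^ 2 + coeff (mm (1, 1)) Q * (x 0 * x 1) +
      coeff (mm (0, 2)) Q * x 1 ^ 2 := by
  have h : eval x Q = ∑ p ∈ T2, coeff (mm p) Q * (x 0 ^ p.1 * x 1 ^ p.2) := by
    rw [MvPolynomial.eval_eq', Finset.sum_subset (support_sub h2), Finset.sum_map]
    · refine Finset.sum_congr rfl fun p _ => ?_
      simp [Fin.prod_univ_two, mm_zero, mm_one]
    · intro d _ hd
      rw [MvPolynomial.notMem_support_iff.1 hd, zero_mul]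
  rw [h]
  simp [T2]
  ring

theorem eq_zero {Q : MvPolynomial (Fin 2) ℝ} (h2 : Q.totalDegree ≤ 2)
    (h : ∀ p ∈ T2, coeff (mm p) Q = 0) : Q = 0 := by
  rw [← MvPolynomial.support_eq_empty, Finset.eq_empty_iff_forall_notMem]
  intro d hd
  obtain ⟨p, hp, rfl⟩ := Finset.mem_map.1 (support_sub h2 hd)
  exact (MvPolynomial.mem_support_iff.1 hd) (h p hp)

theorem coeff_zero_of_lt {Q : MvPolynomial (Fin 2) ℝ} {p : ℕ × ℕ} (h : Q.totalDegree < p.1 + p.2) :
    coeff (mm p) Q = 0 := by
  by_contra hne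
  have := deg_le (MvPolynomial.mem_support_iff.2 hne)
  rw [mm_zero, mm_one] at this
  omega

/-- QUAD. -/
theorem quad : QuadStatement := by
  intro Q hQ h2 h0
  have hev := eval_eq6 h2
  have hc0 : coeff (mm (0, 0)) Q = 0 := by
    have h := hev 0
    rw [h0] at h
    simpa using h.symm
  set c10 := coeff (mm (1, 0)) Q with hc10
  set c01 := coeff (mm (0, 1)) Q with hc01
  set c20 := coeff (mm (2, 0)) Q with hc20
  set c11 := coeff (mm (1, 1)) Q with hc11
  set c02 := coeff (mm (0, 2)) Q with hc02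
  let β : EE 2 →ₗ[ℝ] ℝ :=
    { toFun := fun a => c10 * a 0 + c01 * a 1
      map_add' := fun a b => by simp; ring
      map_smul' := fun c a => by simp; ring }
  let S : EE 2 →ₗ[ℝ] EE 2 →ₗ[ℝ] ℝ := LinearMap.mk₂ ℝ
    (fun a b => 2 * c20 * (a 0 * b 0) + c11 * (a 0 * b 1 + a 1 * b 0) + 2 * c02 * (a 1 * b 1))
    (fun a b c => by simp; ring) (fun c a b => by simp; ring) (fun a b c => by simp; ring)
    (fun c a b => by simp; ring)
  have hβ : ∀ a : EE 2, β a = c10 * a 0 + c01 * a 1 := fun a => rfl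
  have hS : ∀ a b : EE 2, S a b =
      2 * c20 * (a 0 * b 0) + c11 * (a 0 * b 1 + a 1 * b 0) + 2 * c02 * (a 1 * b 1) :=
    fun a b => rfl
  refine ⟨β, S, fun a b => ?_, ?_, ?_, fun x => ?_⟩
  · rw [hS, hS]; ring
  · by_contra hcon
    push Not at hcon
    obtain ⟨hb, hs⟩ := hcon
    have e10 : c10 = 0 := by
      have h := hβ (EuclideanSpace.single 0 1)
      rw [hb] at h
      simpa using h.symm
    have e01 : c01 = 0 := by
      have h := hβ (EuclideanSpace.single 1 1)
      rw [hb] at h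
      simpa using h.symm
    have e20 : c20 = 0 := by
      have h := hS (EuclideanSpace.single 0 1) (EuclideanSpace.single 0 1)
      rw [hs] at h
      simpa using h.symm
    have e11 : c11 = 0 := by
      have h := hS (EuclideanSpace.single 0 1) (EuclideanSpace.single 1 1)
      rw [hs] at h
      simpa using h.symm
    have e02 : c02 = 0 := by
      have h := hS (EuclideanSpace.single 1 1) (EuclideanSpace.single 1 1)
      rw [hs] at h
      simpa using h.symm
    refine hQ (eq_zero h2 fun p hp => ?_)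
    simp only [T2, Finset.mem_insert, Finset.mem_singleton] at hp
    rcases hp with rfl | rfl | rfl | rfl | rfl | rfl
    · exact hc0
    · exact e10
    · exact e01
    · exact e20
    · exact e11
    · exact e02
  · intro h1
    have e20 : c20 = 0 := coeff_zero_of_lt (p := (2, 0)) (by simp; omega)
    have e11 : c11 = 0 := coeff_zero_of_lt (p := (1, 1)) (by simp; omega)
    have e02 : c02 = 0 := coeff_zero_of_lt (p := (0, 2)) (by simp; omega)
    ext a b
    rw [hS, e20, e11, e02]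
    simp
  · rw [hev, hc0, hβ, hS]
    ring

end Pool.Agent.CutLoci.H21
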